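import Mathlib

set_option autoImplicit false

namespace Pool.Agent.Results.MP_03a7fb_al.Example

open MvPowerSeries

noncomputable section

/-- the Laplace operator on formal power series in `n` variables -/
def lap {n : ℕ} (f : MvPowerSeries (Fin n) ℂ) : MvPowerSeries (Fin n) ℂ :=
  ∑ i, pderiv ℂ i (pderiv ℂ i f)

/-- the Hessian matrix of a formal power series in `n` variables -/
def hes {n : ℕ} (f : MvPowerSeries (Fin n) ℂ) : Matrix (Fin n) (Fin n) (MvPowerSeries (Fin n) ℂ) :=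
  Matrix.of fun i j => pderiv ℂ i (pderiv ℂ j f)

abbrev R := MvPowerSeries (Fin 4) ℂ

lemma pd_comm (i j : Fin 4) (f : R) : pderiv ℂ i (pderiv ℂ j f) = pderiv ℂ j (pderiv ℂ i f) := by
  by_cases h : i = j
  · rw [h]
  ext d
  simp only [coeff_pderiv, Finsupp.add_apply, Finsupp.single_eq_of_ne h,
    Finsupp.single_eq_of_ne (Ne.symm h), add_zero]
  rw [add_right_comm]; ring

def ii : R := C Complex.I

lemma ii_sq : ii * ii = -1 := by
  rw [ii, ← map_mul, Complex.I_mul_I, map_neg, map_one]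

def hf : R := C (1 / 2)

lemma hf2 : hf * 2 = 1 := by
  rw [hf, show (2 : R) = C 2 from (map_ofNat C 2).symm, ← map_mul]; norm_num

def x : R := X 0 + ii * X 2
def p : R := X 0 - ii * X 2
def y : R := X 1 + ii * X 3
def q : R := X 1 - ii * X 3
def w : R := (1 + x)⁻¹

lemma wx : w * (1 + x) = 1 := MvPowerSeries.inv_mul_cancel _ (by simp [x, ii])

def dx : Derivation ℂ R R := hf • (pderiv ℂ 0 - ii • pderiv ℂ 2)
def dp : Derivation ℂ R R := hf • (pderiv ℂ 0 + ii • pderiv ℂ 2)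
def dy : Derivation ℂ R R := hf • (pderiv ℂ 1 - ii • pderiv ℂ 3)
def dq : Derivation ℂ R R := hf • (pderiv ℂ 1 + ii • pderiv ℂ 3)

@[simp] lemma pd_ii (i : Fin 4) : pderiv ℂ i ii = 0 := pderiv_C
@[simp] lemma pd_hf (i : Fin 4) : pderiv ℂ i hf = 0 := pderiv_C

lemma dx_x : dx x = 1 := by
  simp [dx, x]; linear_combination hf2 - hf * ii_sq
lemma dx_p : dx p = 0 := by
  simp [dx, p]; right; linear_combination ii_sq
lemma dx_y : dx y = 0 := by simp [dx, y]
lemma dx_q : dx q = 0 := by simp [dx, q]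
lemma dp_x : dp x = 0 := by
  simp [dp, x]; linear_combination hf * ii_sq
lemma dp_p : dp p = 1 := by
  simp [dp, p]; linear_combination hf2 - hf * ii_sq
lemma dp_y : dp y = 0 := by simp [dp, y]
lemma dp_q : dp q = 0 := by simp [dp, q]
lemma dy_y : dy y = 1 := by
  simp [dy, y]; linear_combination hf2 - hf * ii_sq
lemma dy_q : dy q = 0 := by
  simp [dy, q]; right; linear_combination ii_sq
lemma dy_x : dy x = 0 := by simp [dy, x]
lemma dy_p : dy p = 0 := by simp [dy, p]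
lemma dq_y : dq y = 0 := by
  simp [dq, y]; linear_combination hf * ii_sq
lemma dq_q : dq q = 1 := by
  simp [dq, q]; linear_combination hf2 - hf * ii_sq
lemma dq_x : dq x = 0 := by simp [dq, x]
lemma dq_p : dq p = 0 := by simp [dq, p]

lemma d_w (d : Derivation ℂ R R) : d w = - w ^ 2 * d x := by
  have h := congrArg d wx
  simp only [Derivation.leibniz, map_add, Derivation.map_one_eq_zero, smul_eq_mul, zero_add] at h
  linear_combination w * h - d w * wx

lemma dx_w : dx w = - w ^ 2 := by rw [d_w, dx_x, mul_one]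
lemma dp_w : dp w = 0 := by rw [d_w, dp_x, mul_zero]
lemma dy_w : dy w = 0 := by rw [d_w, dy_x, mul_zero]
lemma dq_w : dq w = 0 := by rw [d_w, dq_x, mul_zero]

lemma d_nat (d : Derivation ℂ R R) (n : ℕ) [n.AtLeastTwo] : d (ofNat(n) : R) = 0 :=
  d.map_natCast n

def P : R := 3 * p * (y * w) ^ 2 + 2 * q * (y * w) ^ 3

lemma D0 (f : R) : pderiv ℂ 0 f = dx f + dp f := by
  simp [dx, dp]; linear_combination (-pderiv ℂ 0 f) * hf2
lemma D1 (f : R) : pderiv ℂ 1 f = dy f + dq f := by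
  simp [dy, dq]; linear_combination (-pderiv ℂ 1 f) * hf2
lemma D2 (f : R) : pderiv ℂ 2 f = ii * (dx f - dp f) := by
  simp [dx, dp]; linear_combination (-pderiv ℂ 2 f) * hf2 + 2 * hf * pderiv ℂ 2 f * ii_sq
lemma D3 (f : R) : pderiv ℂ 3 f = ii * (dy f - dq f) := by
  simp [dy, dq]; linear_combination (-pderiv ℂ 3 f) * hf2 + 2 * hf * pderiv ℂ 3 f * ii_sq

def L (f : R) : R := dx (dp f) + dy (dq f)

lemma lap_eq (f : R) : lap f = 4 * L f := by
  simp [lap, L, Fin.sum_univ_four, dx, dy, dp, dq, pd_comm 2 0, pd_comm 3 1]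
  linear_combination (-(2 * hf + 1) * (pderiv ℂ 0 (pderiv ℂ 0 f) + pderiv ℂ 1 (pderiv ℂ 1 f) +
    pderiv ℂ 2 (pderiv ℂ 2 f) + pderiv ℂ 3 (pderiv ℂ 3 f))) * hf2 + 4 * hf ^ 2 *
    (pderiv ℂ 2 (pderiv ℂ 2 f) + pderiv ℂ 3 (pderiv ℂ 3 f)) * ii_sq

lemma pd_lap (i : Fin 4) (f : R) : pderiv ℂ i (lap f) = lap (pderiv ℂ i f) := by
  simp only [lap, map_sum]
  exact Finset.sum_congr rfl fun j _ => by rw [pd_comm i j, pd_comm i j]

lemma lap_add (f g : R) : lap (f + g) = lap f + lap g := by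
  simp [lap, Finset.sum_add_distrib]

lemma lap_C (c : ℂ) (f : R) : lap (C c * f) = C c * lap f := by
  simp [lap, Finset.mul_sum]

lemma it_add (m : ℕ) (f g : R) : lap^[m] (f + g) = lap^[m] f + lap^[m] g := by
  induction m generalizing f g with
  | zero => rfl
  | succ m ih => simp only [Function.iterate_succ_apply, lap_add, ih]

lemma it_C (m : ℕ) (c : ℂ) (f : R) : lap^[m] (C c * f) = C c * lap^[m] f := by
  induction m generalizing f with
  | zero => rfl
  | succ m ih => simp only [Function.iterate_succ_apply, lap_C, ih]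

lemma it_pd (m : ℕ) (i : Fin 4) (f : R) : lap^[m] (pderiv ℂ i f) = pderiv ℂ i (lap^[m] f) := by
  induction m generalizing f with
  | zero => rfl
  | succ m ih => simp only [Function.iterate_succ_apply, ← pd_lap, ih]

lemma it_d (m : ℕ) (i j : Fin 4) (c : ℂ) (f : R) :
    lap^[m] (hf * (pderiv ℂ i f + C c * pderiv ℂ j f)) =
      hf * (pderiv ℂ i (lap^[m] f) + C c * pderiv ℂ j (lap^[m] f)) := by
  rw [hf, it_C, it_add, it_C, it_pd, it_pd]

lemma it_dx (m : ℕ) (f : R) : lap^[m] (dx f) = dx (lap^[m] f) := by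
  simpa [dx, ii, sub_eq_add_neg, mul_add] using it_d m 0 2 (-Complex.I) f
lemma it_dy (m : ℕ) (f : R) : lap^[m] (dy f) = dy (lap^[m] f) := by
  simpa [dy, ii, sub_eq_add_neg, mul_add] using it_d m 1 3 (-Complex.I) f
lemma it_dp (m : ℕ) (f : R) : lap^[m] (dp f) = dp (lap^[m] f) := by
  simpa [dp, ii, mul_add] using it_d m 0 2 Complex.I f

lemma dp_P : dp P = 3 * (y * w) ^ 2 := by
  simp [P, Derivation.leibniz_pow, d_nat, dp_p, dp_q, dp_y, dp_w]; ring
lemma dq_P : dq P = 2 * (y * w) ^ 3 := by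
  simp [P, Derivation.leibniz_pow, d_nat, dq_p, dq_q, dq_y, dq_w]; ring

def c (m s : ℕ) : ℂ :=
  (-4) ^ m * m.factorial * (s + 1) * (s + 3 * m).factorial / (s + 2 * m + 1).factorial

lemma d_C (d : Derivation ℂ R R) (a : ℂ) : d (C a) = 0 := d.map_algebraMap a

lemma key (m : ℕ) : ∀ s : ℕ, lap^[m] (P ^ m * (y * w) ^ (s + 1)) =
    C (c m s) * (y ^ (s + 1 + 2 * m) * w ^ (s + 1 + 3 * m)) := by
  induction m with
  | zero =>
    intro s
    have : c 0 s = 1 := by
      have : ((s + 1).factorial : ℂ) ≠ 0 := by exact_mod_cast (s + 1).factorial_ne_zero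
      simp only [c, mul_zero, add_zero]
      rw [div_eq_one_iff_eq this, Nat.factorial_succ]; simp
    simp [this, mul_pow]
  | succ m ih =>
    intro s
    have e1 : dp (P ^ (m + 1) * (y * w) ^ (s + 1)) =
        C (3 * (m + 1) : ℂ) * (P ^ m * (y * w) ^ (s + 2 + 1)) := by
      simp [Derivation.leibniz_pow, dp_P, dp_y, dp_w, map_ofNat]; ring
    have e2 : dq (P ^ (m + 1) * (y * w) ^ (s + 1)) =
        C (2 * (m + 1) : ℂ) * (P ^ m * (y * w) ^ (s + 3 + 1)) := by
      simp [Derivation.leibniz_pow, dq_P, dq_y, dq_w, map_ofNat]; ring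
    rw [Function.iterate_succ_apply, lap_eq, show (4 : R) = C 4 from (map_ofNat C 4).symm, it_C, L,
      it_add, it_dx, it_dy, e1, e2, it_C, it_C, ih, ih]
    have hc : c (m + 1) s = 4 * (-(3 * (m + 1)) * c m (s + 2) * (s + 3 + 3 * m) +
        2 * (m + 1) * c m (s + 3) * (s + 4 + 2 * m)) := by
      have h1 : ((s + 2 * m + 3).factorial : ℂ) ≠ 0 := by
        exact_mod_cast (s + 2 * m + 3).factorial_ne_zero
      have h2 : ((s + 2 * m + 3 + 1 : ℕ) : ℂ) ≠ 0 := Nat.cast_ne_zero.2 (by omega)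
      simp only [c]
      rw [show s + 3 * (m + 1) = s + 2 + 3 * m + 1 by ring,
        show s + 2 * (m + 1) + 1 = s + 2 * m + 3 by ring,
        show s + 2 + 2 * m + 1 = s + 2 * m + 3 by ring,
        show s + 3 + 3 * m = s + 2 + 3 * m + 1 by ring,
        show s + 3 + 2 * m + 1 = s + 2 * m + 3 + 1 by ring,
        Nat.factorial_succ (s + 2 * m + 3), Nat.factorial_succ (s + 2 + 3 * m),
        Nat.factorial_succ m]
      simp only [Nat.cast_mul]
      field_simp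
      push_cast
      ring
    rw [hc, show s + 2 + 1 + 3 * m = s + 2 + 3 * m + 1 by ring,
      show s + 3 + 1 + 2 * m = s + 3 + 2 * m + 1 by ring]
    simp [Derivation.leibniz_pow, d_C, d_nat, dx_y, dx_w, dy_y, dy_w, map_ofNat]
    ring

lemma c_ne (m s : ℕ) : c m s ≠ 0 := by
  have h : ∀ n : ℕ, (n.factorial : ℂ) ≠ 0 := fun n => by exact_mod_cast n.factorial_ne_zero
  have h2 : (s : ℂ) + 1 ≠ 0 := by exact_mod_cast Nat.succ_ne_zero s
  simp [c, h, h2]

lemma nonvan (m : ℕ) : lap^[m] (P ^ (m + 1)) ≠ 0 := by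
  intro h
  have e1 : dp (P ^ (m + 1)) = C (3 * (m + 1) : ℂ) * (P ^ m * (y * w) ^ (1 + 1)) := by
    simp [Derivation.leibniz_pow, dp_P, map_ofNat]; ring
  have h1 := it_dp m (P ^ (m + 1))
  rw [h, map_zero, e1, it_C, key] at h1
  have hy : y ≠ 0 := fun h => by simpa [h] using dy_y
  have hw : w ≠ 0 := fun h => by simpa [h] using wx
  have hC : ∀ a : ℂ, a ≠ 0 → (C a : R) ≠ 0 := fun a ha h =>
    ha (by simpa using congrArg constantCoeff h)
  have h2 : (3 * (m + 1) : ℂ) ≠ 0 := by exact_mod_cast (by omega : 3 * (m + 1) ≠ 0)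
  exact mul_ne_zero (hC _ h2) (mul_ne_zero (hC _ (c_ne _ _))
    (mul_ne_zero (pow_ne_zero _ hy) (pow_ne_zero _ hw))) h1

def M : Matrix (Fin 4) (Fin 4) R := !![1, 0, ii, 0; 0, 1, 0, ii; 1, 0, -ii, 0; 0, 1, 0, -ii]

def H : Matrix (Fin 4) (Fin 4) R :=
  !![18 * p * y ^ 2 * w ^ 4 + 24 * q * y ^ 3 * w ^ 5, -12 * p * y * w ^ 3 - 18 * q * y ^ 2 * w ^ 4,
      -6 * y ^ 2 * w ^ 3, -6 * y ^ 3 * w ^ 4;
    -12 * p * y * w ^ 3 - 18 * q * y ^ 2 * w ^ 4, 6 * p * w ^ 2 + 12 * q * y * w ^ 3,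
      6 * y * w ^ 2, 6 * y ^ 2 * w ^ 3;
    -6 * y ^ 2 * w ^ 3, 6 * y * w ^ 2, 0, 0;
    -6 * y ^ 3 * w ^ 4, 6 * y ^ 2 * w ^ 3, 0, 0]

lemma d_ii (d : Derivation ℂ R R) : d ii = 0 := d_C d _

lemma hes_eq : hes P = M.transpose * H * M := by
  have h0 : (fun f => pderiv ℂ (0 : Fin 4) f) = fun f => dx f + dp f := funext D0
  ext1 i j
  fin_cases i <;> fin_cases j <;>
    simp [hes, M, H, Matrix.mul_apply, Fin.sum_univ_four, D0, D1, D2, D3, P, d_ii,
      Derivation.leibniz_pow, d_nat, dx_p, dx_q, dx_y, dx_w, dy_p, dy_q, dy_y, dy_w, dp_p, dp_q,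
      dp_y, dp_w, dq_p, dq_q, dq_y, dq_w] <;> ring

lemma MM : M * M.transpose = !![0, 0, 2, 0; 0, 0, 0, 2; 2, 0, 0, 0; 0, 2, 0, 0] := by
  ext1 i j
  fin_cases i <;> fin_cases j <;> simp [M, Matrix.mul_apply, Fin.sum_univ_four, ii_sq] <;>
    norm_num

lemma nil : IsNilpotent (hes P) := by
  have h1 : ((H * (M * M.transpose)) ^ 2) ^ 2 = 0 := by
    rw [MM, pow_two, pow_two]
    ext1 i j
    fin_cases i <;> fin_cases j <;> simp [H, Matrix.mul_apply, Fin.sum_univ_four] <;> ring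
  refine ⟨5, ?_⟩
  have : hes P ^ 5 = M.transpose * ((H * (M * M.transpose)) ^ 2) ^ 2 * (H * M) := by
    rw [hes_eq]; simp only [pow_succ, pow_zero, one_mul, Matrix.mul_assoc]
  rw [this, h1]; simp

lemma notpoly (f : MvPolynomial (Fin 4) ℂ) : (f : R) ≠ P := by
  intro h
  let x' : MvPolynomial (Fin 4) ℂ := MvPolynomial.X 0 + MvPolynomial.C Complex.I * MvPolynomial.X 2
  let p' : MvPolynomial (Fin 4) ℂ := MvPolynomial.X 0 - MvPolynomial.C Complex.I * MvPolynomial.X 2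
  let y' : MvPolynomial (Fin 4) ℂ := MvPolynomial.X 1 + MvPolynomial.C Complex.I * MvPolynomial.X 3
  let q' : MvPolynomial (Fin 4) ℂ := MvPolynomial.X 1 - MvPolynomial.C Complex.I * MvPolynomial.X 3
  have h1 : f * (1 + x') ^ 3 = 3 * p' * y' ^ 2 * (1 + x') + 2 * q' * y' ^ 3 := by
    apply MvPolynomial.coe_injective (Fin 4) ℂ
    have e : ∀ g : MvPolynomial (Fin 4) ℂ,
      (g : R) = MvPolynomial.coeToMvPowerSeries.ringHom g := fun g => rfl
    have ex : MvPolynomial.coeToMvPowerSeries.ringHom x' = x := by simp [x', x, ii]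
    have ep : MvPolynomial.coeToMvPowerSeries.ringHom p' = p := by
      simp only [p', p, ii, map_sub, map_mul]; simp
    have ey : MvPolynomial.coeToMvPowerSeries.ringHom y' = y := by simp [y', y, ii]
    have eq : MvPolynomial.coeToMvPowerSeries.ringHom q' = q := by
      simp only [q', q, ii, map_sub, map_mul]; simp
    rw [e] at h
    simp only [e, map_mul, map_add, map_pow, map_one, map_ofNat, ex, ep, ey, eq, h, P]
    linear_combination (3 * p * y ^ 2 * (1 + x) * (w * (1 + x) + 1) +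
      2 * q * y ^ 3 * ((w * (1 + x)) ^ 2 + w * (1 + x) + 1)) * wx
  have := congrArg (MvPolynomial.eval ![-1, 1, 0, 0]) h1
  simp [x', p', y', q'] at this

lemma ord : 3 ≤ P.order := by
  have h1 : ∀ i : Fin 4, ∀ j : Fin 4, ∀ a : R, 1 ≤ (X i + a * X j : R).order := fun i j a =>
    one_le_order_iff_constCoeff_eq_zero.2 (by simp)
  have hp : 1 ≤ p.order := by simpa [p, sub_eq_add_neg] using h1 0 2 (-ii)
  have hy : 1 ≤ y.order := h1 1 3 ii
  have e : P = (p * y * y) * (3 * w ^ 2) + (y * y * y) * (2 * q * w ^ 3) := by rw [P]; ring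
  have k : ∀ a b : R, 1 ≤ a.order → 3 ≤ (a * y * y * b).order := fun a b ha => by
    simp only [order_mul]
    calc (3 : ℕ∞) = 1 + 1 + 1 + 0 := by norm_num
      _ ≤ _ := by gcongr; exact zero_le
  rw [e]
  exact (le_min (k _ _ hp) (k _ _ hy)).trans min_order_le_add

end

theorem result : ∃ P : MvPowerSeries (Fin 4) ℂ, 3 ≤ P.order ∧
    (∀ f : MvPolynomial (Fin 4) ℂ, (f : MvPowerSeries (Fin 4) ℂ) ≠ P) ∧ IsNilpotent (hes P) ∧
    ∀ m : ℕ, lap^[m] (P ^ (m + 1)) ≠ 0 :=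
  ⟨P, ord, notpoly, nil, nonvan⟩

end Pool.Agent.Results.MP_03a7fb_al.Example
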